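import Mathlib

namespace Pool.Agent.H.MP_7a8588_lc

open LaurentPolynomial

set_option linter.dupNamespace false

@[ext] structure H (R : Type) [CommRing R] where
  x : R
  u : Rˣ
  y : R
  z : R

section
variable {R : Type} [CommRing R]

instance : Mul (H R) :=
  ⟨fun a b => ⟨b.x + a.x * b.u, a.u * b.u, a.y + a.u * b.y, a.z + b.z + a.x * b.y⟩⟩
instance : One (H R) := ⟨⟨0, 1, 0, 0⟩⟩
instance : Inv (H R) :=
  ⟨fun a => ⟨-(a.x * (a.u⁻¹ : Rˣ)), a.u⁻¹, -((a.u⁻¹ : Rˣ) * a.y), -a.z + a.x * (a.u⁻¹ : Rˣ) * a.y⟩⟩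

@[simp] theorem mul_x (a b : H R) : (a * b).x = b.x + a.x * b.u := rfl
@[simp] theorem mul_u (a b : H R) : (a * b).u = a.u * b.u := rfl
@[simp] theorem mul_y (a b : H R) : (a * b).y = a.y + a.u * b.y := rfl
@[simp] theorem mul_z (a b : H R) : (a * b).z = a.z + b.z + a.x * b.y := rfl
@[simp] theorem one_x : (1 : H R).x = 0 := rfl
@[simp] theorem one_u : (1 : H R).u = 1 := rfl
@[simp] theorem one_y : (1 : H R).y = 0 := rfl
@[simp] theorem one_z : (1 : H R).z = 0 := rfl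
theorem inv_x (a : H R) : (a⁻¹).x = -(a.x * (a.u⁻¹ : Rˣ)) := rfl
theorem inv_u (a : H R) : (a⁻¹).u = a.u⁻¹ := rfl
theorem inv_y (a : H R) : (a⁻¹).y = -((a.u⁻¹ : Rˣ) * a.y) := rfl
theorem inv_z (a : H R) : (a⁻¹).z = -a.z + a.x * (a.u⁻¹ : Rˣ) * a.y := rfl

instance : Group (H R) := Group.ofLeftAxioms
  (fun a b c => by
    ext
    · simp; ring
    · simp [mul_assoc]
    · simp; ring
    · simp; ring)
  (fun a => by ext <;> simp)
  (fun a => by
    ext
    · simp [inv_x]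
    · simp [inv_u]
    · simp [inv_y, inv_u]
    · simp [inv_z, inv_x])

def c (w : R) : H R := ⟨0, 1, 0, w⟩

theorem c_add (v w : R) : c (v + w) = c v * c w := by ext <;> simp [c]

theorem c_zero : c (0 : R) = 1 := rfl

theorem c_pow (w : R) (m : ℕ) : c w ^ m = c (m • w) := by
  induction m with
  | zero => simp [c_zero]
  | succ m ih => rw [pow_succ, ih, ← c_add, succ_nsmul]

theorem c_comm (w : R) (a : H R) : c w * a = a * c w := by
  ext <;> simp [c, add_comm]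

theorem c_inv (w : R) : (c w)⁻¹ = c (-w) := by
  rw [inv_eq_iff_mul_eq_one, ← c_add]; simp [c_zero]

theorem c_inj {v w : R} (h : c v = c w) : v = w := congrArg H.z h

def cen (W : AddSubgroup R) : Subgroup (H R) where
  carrier := {a | ∃ w ∈ W, a = c w}
  mul_mem' := by
    rintro _ _ ⟨v, hv, rfl⟩ ⟨w, hw, rfl⟩
    exact ⟨v + w, W.add_mem hv hw, (c_add v w).symm⟩
  one_mem' := ⟨0, W.zero_mem, rfl⟩
  inv_mem' := by
    rintro _ ⟨v, hv, rfl⟩
    exact ⟨-v, W.neg_mem hv, c_inv v⟩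

theorem mem_cen {W : AddSubgroup R} {a : H R} : a ∈ cen W ↔ ∃ w ∈ W, a = c w := Iff.rfl

theorem c_mem_cen {W : AddSubgroup R} {w : R} : c w ∈ cen W ↔ w ∈ W :=
  ⟨fun ⟨_, hv, h⟩ => c_inj h ▸ hv, fun h => ⟨w, h, rfl⟩⟩

theorem mem_cen_iff {W : AddSubgroup R} {a : H R} :
    a ∈ cen W ↔ a.x = 0 ∧ a.u = 1 ∧ a.y = 0 ∧ a.z ∈ W := by
  constructor
  · rintro ⟨w, hw, rfl⟩
    exact ⟨rfl, rfl, rfl, hw⟩
  · rintro ⟨h1, h2, h3, h4⟩
    exact ⟨a.z, h4, H.ext h1 h2 h3 rfl⟩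

instance (W : AddSubgroup R) : (cen W).Normal := ⟨by
  rintro _ ⟨w, hw, rfl⟩ g
  refine ⟨w, hw, ?_⟩
  rw [← c_comm, mul_assoc, mul_inv_cancel, mul_one]⟩

theorem cen_mono {V W : AddSubgroup R} (h : V ≤ W) : cen V ≤ cen W :=
  fun _ ⟨w, hw, e⟩ => ⟨w, h hw, e⟩

theorem coords {W : AddSubgroup R} {a b : H R} (h : a⁻¹ * b ∈ cen W) :
    a.x = b.x ∧ a.u = b.u ∧ a.y = b.y := by
  obtain ⟨w, -, hw⟩ := h
  have : b = a * c w := by rw [← hw]; group
  subst this
  simp [c]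

def map {S : Type} [CommRing S] (f : R →+* S) : H R →* H S where
  toFun a := ⟨f a.x, Units.map f.toMonoidHom a.u, f a.y, f a.z⟩
  map_one' := by ext <;> simp
  map_mul' a b := by ext <;> simp

instance [Finite R] : Finite (H R) :=
  Finite.of_injective (fun a : H R => (a.x, a.u, a.y, a.z)) (by
    intro a b h
    simp only [Prod.mk.injEq] at h
    exact H.ext h.1 h.2.1 h.2.2.1 h.2.2.2)

end

abbrev F := FreeGroup (Fin 3)

theorem hopf {G : Type} [Group G] (p : F →* G) (hp : Function.Surjective p)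
    (hrf : ∀ g : G, g ≠ 1 → ∃ (Q : Type) (_ : Group Q) (_ : Finite Q) (ψ : G →* Q), ψ g ≠ 1)
    (φ : G →* G) (hφ : Function.Surjective φ) : Function.Injective φ := by
  rw [injective_iff_map_eq_one]
  intro g hg
  by_contra hne
  obtain ⟨Q, _, _, ψ, hψ⟩ := hrf g hne
  have : Finite (G →* Q) := by
    refine Finite.of_injective (fun χ : G →* Q => fun i : Fin 3 => χ (p (FreeGroup.of i))) ?_
    intro χ χ' h
    have : χ.comp p = χ'.comp p := FreeGroup.ext_hom _ _ fun i => congrFun h i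
    ext a
    obtain ⟨b, rfl⟩ := hp a
    exact DFunLike.congr_fun this b
  have hinj : Function.Injective (fun χ : G →* Q => χ.comp φ) := by
    intro χ χ' h
    ext a
    obtain ⟨b, rfl⟩ := hφ a
    exact DFunLike.congr_fun h b
  obtain ⟨χ, hχ⟩ := Finite.injective_iff_surjective.1 hinj ψ
  apply hψ
  rw [← hχ]
  simp [hg]

abbrev R := LaurentPolynomial ℤ

theorem ring_rf (r : R) (hr : r ≠ 0) :
    ∃ (q : ℕ) (_ : NeZero q) (f : R →+* ZMod q), f r ≠ 0 := by
  obtain ⟨n, f', hf'⟩ := exists_T_pow r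
  have hne : f' ≠ 0 := by
    rintro rfl
    rw [map_zero] at hf'
    exact mul_ne_zero hr (isUnit_T (n : ℤ)).ne_zero hf'.symm
  have : ∃ k : ℤ, 0 < k ∧ f'.eval k ≠ 0 := by
    by_contra hc
    push Not at hc
    exact hne (Polynomial.eq_zero_of_infinite_isRoot f'
      ((Set.Ioi_infinite (0 : ℤ)).mono fun k hk => hc k hk))
  obtain ⟨k, hk, hev⟩ := this
  obtain ⟨q, hq, hqp⟩ := Nat.exists_infinite_primes ((f'.eval k).natAbs + k.natAbs + 1)
  have : Fact q.Prime := ⟨hqp⟩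
  have nz : ∀ m : ℤ, m ≠ 0 → m.natAbs < q → (m : ZMod q) ≠ 0 := by
    intro m hm hlt h
    rw [ZMod.intCast_zmod_eq_zero_iff_dvd] at h
    have := Int.natAbs_le_of_dvd_ne_zero h hm
    simp at this
    omega
  have hk' : (k : ZMod q) ≠ 0 := nz k hk.ne' (by omega)
  refine ⟨q, ⟨hqp.ne_zero⟩, eval₂ (Int.castRingHom (ZMod q)) (Units.mk0 _ hk'), fun h => ?_⟩
  have h2 := congrArg (eval₂ (Int.castRingHom (ZMod q)) (Units.mk0 _ hk')) hf'
  rw [map_mul, h, zero_mul, eval₂_toLaurent] at h2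
  have h3 := Polynomial.eval₂_at_intCast (Int.castRingHom (ZMod q)) k (p := f')
  simp only [Units.val_mk0] at h2
  rw [h2] at h3
  exact nz _ hev (by omega) h3.symm

noncomputable def U (i : ℤ) : Rˣ :=
  ⟨T i, T (-i), by rw [← T_add]; simp, by rw [← T_add]; simp⟩

noncomputable def gen : Fin 3 → H R := ![⟨0, U 1, 0, 0⟩, ⟨1, 1, 0, 0⟩, ⟨0, 1, 1, 0⟩]

noncomputable def π : F →* H R := FreeGroup.lift gen

theorem π_of (i : Fin 3) : π (FreeGroup.of i) = gen i := FreeGroup.lift_apply_of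

theorem diag_mem (i : ℤ) : (⟨0, U i, 0, 0⟩ : H R) ∈ π.range := by
  have h1 : (⟨0, U 1, 0, 0⟩ : H R) ∈ π.range := ⟨FreeGroup.of 0, π_of 0⟩
  have hadd : ∀ i j : ℤ, (⟨0, U (i + j), 0, 0⟩ : H R) = ⟨0, U i, 0, 0⟩ * ⟨0, U j, 0, 0⟩ := by
    intro i j
    refine H.ext (by simp) (Units.ext (T_add i j)) (by simp) (by simp)
  induction i using Int.induction_on with
  | zero =>
    have : (⟨0, U 0, 0, 0⟩ : H R) = 1 := by ext <;> simp [U]
    rw [this]; exact one_mem _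
  | succ i ih => rw [hadd]; exact mul_mem ih h1
  | pred i ih =>
    have : (⟨0, U (-(i : ℤ) - 1), 0, 0⟩ : H R) = ⟨0, U (-(i : ℤ)), 0, 0⟩ * (⟨0, U 1, 0, 0⟩)⁻¹ := by
      rw [eq_mul_inv_iff_mul_eq, ← hadd]; simp
    rw [this]; exact mul_mem ih (inv_mem h1)

theorem exists_g (i : ℤ) : ∃ g : F, π g = c (T i) := by
  have h1 : (⟨1, 1, 0, 0⟩ : H R) ∈ π.range := ⟨FreeGroup.of 1, π_of 1⟩
  have h2 : (⟨0, 1, 1, 0⟩ : H R) ∈ π.range := ⟨FreeGroup.of 2, π_of 2⟩
  have h3 : (⟨0, 1, T i, 0⟩ : H R) ∈ π.range := by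
    have : (⟨0, 1, T i, 0⟩ : H R) = ⟨0, U i, 0, 0⟩ * ⟨0, 1, 1, 0⟩ * (⟨0, U i, 0, 0⟩)⁻¹ := by
      rw [eq_mul_inv_iff_mul_eq]
      ext <;> simp [U]
    rw [this]
    exact mul_mem (mul_mem (diag_mem i) h2) (inv_mem (diag_mem i))
  have : (c (T i) : H R) = (⟨1, 1, 0, 0⟩ * ⟨0, 1, T i, 0⟩) * (⟨0, 1, T i, 0⟩ * ⟨1, 1, 0, 0⟩)⁻¹ := by
    rw [eq_mul_inv_iff_mul_eq]
    ext <;> simp [c]
  have h4 : (c (T i) : H R) ∈ π.range := by
    rw [this]
    exact mul_mem (mul_mem h1 h3) (inv_mem (mul_mem h3 h1))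
  exact h4

noncomputable def g (i : ℤ) : F := (exists_g i).choose

theorem π_g (i : ℤ) : π (g i) = c (T i) := (exists_g i).choose_spec

noncomputable def N (W : AddSubgroup R) : Subgroup F := (cen W).comap π

instance (W : AddSubgroup R) : (N W).Normal := Subgroup.Normal.comap inferInstance π

theorem mem_N {W : AddSubgroup R} {a : F} : a ∈ N W ↔ π a ∈ cen W := Iff.rfl

theorem T_one_ne : (T 1 : R) - 1 ≠ 0 := by
  intro h
  have := congrArg (fun r : R => r.coeff 1) (sub_eq_zero.1 h)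
  rw [← T_zero] at this
  simp only [T_apply] at this
  simp at this

theorem central (W : AddSubgroup R) (a : F) (h : ∀ b : F, (a * b)⁻¹ * (b * a) ∈ N W) :
    a ∈ N ⊤ := by
  have h0 := h (FreeGroup.of 0)
  have h2 := h (FreeGroup.of 2)
  rw [mem_N, map_mul, map_inv, map_mul, map_mul, π_of] at h0 h2
  obtain ⟨e1, -, e2⟩ := coords h0
  obtain ⟨-, -, e3⟩ := coords h2
  simp [gen, U] at e1 e2 e3
  rw [mem_N, mem_cen_iff]
  refine ⟨?_, ?_, ?_, trivial⟩
  · have : (π a).x * (T 1 - 1) = 0 := by rw [mul_sub, e1]; simp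
    exact (mul_eq_zero.1 this).resolve_right T_one_ne
  · ext1
    have : ((π a).u : R) = 1 := by linear_combination e3
    simpa using this
  · have : (T 1 - 1) * (π a).y = 0 := by linear_combination -e2
    exact (mul_eq_zero.1 this).resolve_left T_one_ne

theorem rf_L (a : F ⧸ N ⊤) (ha : a ≠ 1) :
    ∃ (Q : Type) (_ : Group Q) (_ : Finite Q) (ψ : F ⧸ N ⊤ →* Q), ψ a ≠ 1 := by
  obtain ⟨a, rfl⟩ := QuotientGroup.mk_surjective a
  have ha' : a ∉ N ⊤ := fun h => ha ((QuotientGroup.eq_one_iff a).2 h)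
  have : ∃ (q : ℕ) (_ : NeZero q) (f : R →+* ZMod q), map f (π a) ∉ cen ⊤ := by
    rw [mem_N, mem_cen_iff] at ha'
    by_cases h1 : (π a).x = 0
    · by_cases h2 : (π a).u = 1
      · have h3 : (π a).y ≠ 0 := fun h3 => ha' ⟨h1, h2, h3, trivial⟩
        obtain ⟨q, hq, f, hf⟩ := ring_rf _ h3
        exact ⟨q, hq, f, fun h => hf (mem_cen_iff.1 h).2.2.1⟩
      · have h3 : ((π a).u : R) - 1 ≠ 0 := fun h => h2 (Units.ext (sub_eq_zero.1 h))
        obtain ⟨q, hq, f, hf⟩ := ring_rf _ h3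
        refine ⟨q, hq, f, fun h => hf ?_⟩
        have := congrArg Units.val (mem_cen_iff.1 h).2.1
        rw [map_sub, map_one, sub_eq_zero]
        exact this
    · obtain ⟨q, hq, f, hf⟩ := ring_rf _ h1
      exact ⟨q, hq, f, fun h => hf (mem_cen_iff.1 h).1⟩
  obtain ⟨q, hq, f, hf⟩ := this
  refine ⟨H (ZMod q) ⧸ cen ⊤, inferInstance, inferInstance,
    QuotientGroup.map (N ⊤) (cen ⊤) ((map f).comp π) ?_, ?_⟩
  · rintro b ⟨w, -, hw⟩
    refine ⟨f w, trivial, ?_⟩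
    simp only [MonoidHom.comp_apply, hw]
    ext <;> simp [map, c]
  · rw [QuotientGroup.map_mk]
    intro h
    exact hf ((QuotientGroup.eq_one_iff _).1 h)

def enc : ℤ ≃ ℕ := Equiv.intEquivNat

noncomputable def pr (i : ℤ) : ℕ := Nat.nth Nat.Prime (enc i)

theorem pr_prime (i : ℤ) : (pr i).Prime := Nat.prime_nth_prime _

theorem pr_inj : Function.Injective pr :=
  (Nat.nth_injective Nat.infinite_setOfPred_prime).comp enc.injective

def W (S : ℕ → Bool) : AddSubgroup R where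
  carrier := {z | ∀ i, S (enc i) = false → (pr i : ℤ) ∣ z.coeff i}
  add_mem' := by
    intro a b ha hb i hi
    simpa using dvd_add (ha i hi) (hb i hi)
  zero_mem' := by intro i _; simp
  neg_mem' := by
    intro a ha i hi
    simpa using ha i hi

theorem mem_W {S : ℕ → Bool} {z : R} :
    z ∈ W S ↔ ∀ i, S (enc i) = false → (pr i : ℤ) ∣ z.coeff i := Iff.rfl

theorem coeff_nsmul (m : ℕ) (z : R) (j : ℤ) : (m • z).coeff j = m * z.coeff j := by
  rw [AddMonoidAlgebra.coeff_smul, Finsupp.smul_apply, nsmul_eq_mul]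

theorem T_mem_W (S : ℕ → Bool) (i : ℤ) : (T i : R) ∈ W S ↔ S (enc i) = true := by
  rw [mem_W]
  constructor
  · intro h
    by_contra hc
    have := h i (by simpa using hc)
    simp only [T_apply, if_true] at this
    have h2 := Int.natCast_dvd_natCast.1 (show ((pr i : ℕ) : ℤ) ∣ ((1 : ℕ) : ℤ) from this)
    exact (pr_prime i).one_lt.ne' (Nat.dvd_one.1 h2)
  · intro h j hj
    have : i ≠ j := by rintro rfl; rw [h] at hj; exact absurd hj (by simp)
    simp [this]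

theorem g_mem (S : ℕ → Bool) (i : ℤ) : g i ∈ N (W S) ↔ S (enc i) = true := by
  rw [mem_N, π_g, c_mem_cen, T_mem_W]

theorem rigid (s S : ℕ → Bool) (K : Subgroup F) [K.Normal] (hK : N (W s) ≤ K)
    (θ : F ⧸ K ≃* F ⧸ N (W S)) (n : ℕ) (hs : s n = true) : S n = true := by
  obtain ⟨i, rfl⟩ := enc.surjective n
  by_contra hS
  have hML : N (W S) ≤ (N ⊤).comap (MonoidHom.id F) := fun a ha => cen_mono le_top ha
  let ρ : F ⧸ N (W S) →* F ⧸ N ⊤ := QuotientGroup.map _ _ (MonoidHom.id F) hML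
  let χ : F →* F ⧸ N ⊤ := ρ.comp (θ.toMonoidHom.comp (QuotientGroup.mk' K))
  have hχ : Function.Surjective χ := by
    intro a
    obtain ⟨a, rfl⟩ := QuotientGroup.mk_surjective a
    obtain ⟨b, hb⟩ := QuotientGroup.mk_surjective (θ.symm (a : F ⧸ N (W S)))
    refine ⟨b, ?_⟩
    simp only [χ, MonoidHom.comp_apply, QuotientGroup.mk'_apply, hb]
    simp [ρ]
  have hkill : ∀ a ∈ N ⊤, χ a = 1 := by
    intro a ha
    obtain ⟨w, -, hw⟩ := ha
    have hc : ∀ b : F ⧸ K, (a : F ⧸ K) * b = b * a := by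
      intro b
      obtain ⟨b, rfl⟩ := QuotientGroup.mk_surjective b
      rw [← QuotientGroup.mk_mul, ← QuotientGroup.mk_mul, QuotientGroup.eq]
      apply hK
      rw [mem_N, map_mul, map_inv, map_mul, map_mul, hw, c_comm, inv_mul_cancel]
      exact one_mem _
    obtain ⟨a', ha'⟩ := QuotientGroup.mk_surjective (θ (a : F ⧸ K))
    have : a' ∈ N ⊤ := by
      refine central (W S) a' fun b => ?_
      rw [← QuotientGroup.eq, QuotientGroup.mk_mul, QuotientGroup.mk_mul, ha']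
      have := congrArg θ (hc (θ.symm b))
      simpa using this
    simp only [χ, MonoidHom.comp_apply, QuotientGroup.mk'_apply]
    change ρ (θ (a : F ⧸ K)) = 1
    rw [← ha']
    exact (QuotientGroup.eq_one_iff a').2 this
  have hinj : Function.Injective (QuotientGroup.lift (N ⊤) χ hkill) := by
    refine hopf (QuotientGroup.mk' _) QuotientGroup.mk_surjective rf_L _ ?_
    intro a
    obtain ⟨b, rfl⟩ := hχ a
    exact ⟨b, rfl⟩
  obtain ⟨h, hh⟩ := QuotientGroup.mk_surjective (θ.symm (g i : F ⧸ N (W S)))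
  have hh' : θ (h : F ⧸ K) = (g i : F ⧸ N (W S)) := by rw [hh]; simp
  have hL : h ∈ N ⊤ := by
    rw [← QuotientGroup.eq_one_iff]
    apply hinj
    rw [map_one]
    change ρ (θ (h : F ⧸ K)) = 1
    rw [hh']
    exact (QuotientGroup.eq_one_iff (g i)).2 ⟨T i, trivial, π_g i⟩
  obtain ⟨z, -, hz⟩ := hL
  have h1 : (h : F ⧸ K) ^ pr i = 1 := by
    apply θ.injective
    rw [map_pow, hh', map_one, ← QuotientGroup.mk_pow, QuotientGroup.eq_one_iff, mem_N, map_pow,
      π_g, c_pow, c_mem_cen, mem_W]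
    intro j _
    rw [coeff_nsmul]
    by_cases hij : i = j
    · subst hij; simp
    · simp [hij]
  let m : ℕ := ∏ j ∈ z.coeff.support.erase i, pr j
  have h2 : (h : F ⧸ K) ^ m = 1 := by
    rw [← QuotientGroup.mk_pow, QuotientGroup.eq_one_iff]
    apply hK
    rw [mem_N, map_pow, hz, c_pow, c_mem_cen, mem_W]
    intro j hj
    have hji : j ≠ i := by rintro rfl; rw [hs] at hj; exact absurd hj (by simp)
    rw [coeff_nsmul]
    by_cases h0 : z.coeff j = 0
    · simp [h0]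
    · have : pr j ∣ m := Finset.dvd_prod_of_mem _ (by simp [hji, h0])
      exact Dvd.dvd.mul_right (Int.natCast_dvd_natCast.2 this) _
  have hcop : Nat.Coprime (pr i) m := by
    refine Nat.Coprime.prod_right fun j hj => ?_
    rw [Nat.coprime_primes (pr_prime i) (pr_prime j)]
    intro e
    exact (Finset.mem_erase.1 hj).1 (pr_inj e).symm
  have h3 : (h : F ⧸ K) = 1 := by
    have := pow_gcd_eq_one.2 ⟨h1, h2⟩
    rwa [hcop, pow_one] at this
  rw [h3, map_one] at hh'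
  exact hS ((g_mem S i).1 ((QuotientGroup.eq_one_iff _).1 hh'.symm))

end Pool.Agent.H.MP_7a8588_lc
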