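import Pool.Agent.H.MP_7a8588_lc.A
import Pool.Agent.H.MP_930073_lc.A

namespace Pool.Agent.H.MP_7a8588_lc

open Set MeasureTheory

abbrev Y := ℕ → Bool

theorem exists_C : ∃ C : Set (Y × Y), MeasurableSet C ∧ ¬ MeasurableSet {x | ∃ b, (x, b) ∈ C} := by
  obtain ⟨e, he, hinj⟩ :=
    MeasurableSpace.measurable_injection_nat_bool_of_countablySeparated (ℕ → ℕ)
  have hemb : MeasurableEmbedding e := he.measurableEmbedding hinj
  have hc := (MP_930073_lc.closed_step (α := (ℕ → ℕ) × Y) (fun a => a.2)
    (fun a => (a.1, a.2, a.2)) (by fun_prop) (by fun_prop)).measurableSet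
  refine ⟨_, ((hemb.measurable_invFun.comp measurable_snd).prodMk measurable_fst) hc, fun h => ?_⟩
  apply MP_930073_lc.not_meas_A
  convert h using 1
  ext t
  simp only [MP_930073_lc.A, MP_930073_lc.r, mem_ofPred_eq, mem_preimage, Function.comp_apply]
  constructor
  · rintro ⟨w, hw⟩
    refine ⟨e w, ?_⟩
    rw [hemb.leftInverse_invFun w]
    exact hw
  · rintro ⟨b, hb⟩
    exact ⟨_, hb⟩

def code (x b : Y) (k : ℕ) : Y := fun n =>
  if n % 3 = 0 then x (n / 3) else if n % 3 = 1 then !x (n / 3) else
    if n / 3 < k then false else b (n / 3 - k)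

def D (C : Set (Y × Y)) : Set Y :=
  {S | (∀ m, S (3 * m + 1) = !S (3 * m)) ∧
    ∃ k, ((fun m => S (3 * m), fun m => S (3 * (m + k) + 2)) : Y × Y) ∈ C}

theorem meas_D {C : Set (Y × Y)} (hC : MeasurableSet C) : MeasurableSet (D C) := by
  have h1 : MeasurableSet {S : Y | ∀ m, S (3 * m + 1) = !S (3 * m)} := by
    refine IsClosed.measurableSet ?_
    rw [ofPred_forall]
    refine isClosed_iInter fun m => isClosed_eq (continuous_apply _) ?_
    exact (continuous_of_discreteTopology (f := fun b : Bool => !b)).comp (continuous_apply _)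
  have h2 : MeasurableSet {S : Y |
      ∃ k, ((fun m => S (3 * m), fun m => S (3 * (m + k) + 2)) : Y × Y) ∈ C} := by
    rw [ofPred_exists]
    refine MeasurableSet.iUnion fun k => ?_
    exact ((measurable_pi_lambda _ fun m => measurable_pi_apply _).prodMk
      (measurable_pi_lambda _ fun m => measurable_pi_apply _)) hC
  exact h1.inter h2

theorem code0 (x b : Y) (k m : ℕ) : code x b k (3 * m) = x m := by
  simp [code]

theorem code1 (x b : Y) (k m : ℕ) : code x b k (3 * m + 1) = !x m := by
  have h1 : (3 * m + 1) % 3 = 1 := by omega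
  have h2 : (3 * m + 1) / 3 = m := by omega
  simp [code, h1, h2]

theorem code2 (x b : Y) (k m : ℕ) : code x b k (3 * (m + k) + 2) = b m := by
  have h1 : (3 * (m + k) + 2) % 3 = 2 := by omega
  have h2 : (3 * (m + k) + 2) / 3 = m + k := by omega
  simp [code, h1, h2]

theorem code_mem {C : Set (Y × Y)} {x b : Y} (h : (x, b) ∈ C) (k : ℕ) : code x b k ∈ D C := by
  refine ⟨fun m => by rw [code0, code1], k, ?_⟩
  simp only [code0, code2]
  exact h

def s (x : Y) : Y := code x (fun _ => false) 0

theorem s_le (x b : Y) (k n : ℕ) (h : s x n = true) : code x b k n = true := by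
  unfold s code at *
  split_ifs at h ⊢ <;> simp_all

theorem s_eq (x b : Y) (k n : ℕ) (hn : n < k) : code x b k n = s x n := by
  have : n / 3 < k := by omega
  unfold s code
  split_ifs <;> simp_all

def P (C : Set (Y × Y)) : Set (Subgroup F) :=
  {K | ∃ _ : K.Normal, ∃ S ∈ D C, Nonempty (F ⧸ K ≃* F ⧸ N (W S))}

theorem W_mono {S S' : Y} (h : ∀ n, S n = true → S' n = true) : W S ≤ W S' := by
  intro z hz i hi
  refine hz i ?_
  cases h' : S (enc i)
  · rfl
  · rw [h _ h'] at hi; exact absurd hi (by simp)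

theorem res_iff (C : Set (Y × Y)) (x : Y) :
    (∀ a : F, a ∉ N (W (s x)) →
      ∃ M : Subgroup F, M.Normal ∧ N (W (s x)) ≤ M ∧ a ∉ M ∧ M ∈ P C) ↔ ∃ b, (x, b) ∈ C := by
  constructor
  · intro h
    obtain ⟨M, -, hle, -, hM, S, ⟨hS1, k, hS2⟩, ⟨θ⟩⟩ := h (g (enc.symm 2)) (by
      rw [g_mem]; simp [s, code])
    have hr := rigid (s x) S M hle θ
    have : (fun m => S (3 * m)) = x := by
      funext m
      cases hx : x m
      · have := hr (3 * m + 1) (by rw [s, code1, hx]; rfl)
        rw [hS1] at this
        simpa using this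
      · exact hr (3 * m) (by rw [s, code0, hx])
    rw [this] at hS2
    exact ⟨_, hS2⟩
  · rintro ⟨b, hb⟩ a ha
    have : ∃ k, a ∉ N (W (code x b k)) := by
      rw [mem_N, mem_cen_iff] at ha
      by_cases hz : (π a).z ∈ W (s x)
      · refine ⟨0, fun h => ha ?_⟩
        rw [mem_N, mem_cen_iff] at h
        exact ⟨h.1, h.2.1, h.2.2.1, hz⟩
      · rw [mem_W] at hz
        push Not at hz
        obtain ⟨i, hi, hd⟩ := hz
        refine ⟨enc i + 1, fun h => hd ?_⟩
        rw [mem_N, mem_cen_iff] at h
        exact h.2.2.2 i (by rw [s_eq _ _ _ _ (Nat.lt_succ_self _), hi])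
    obtain ⟨k, hk⟩ := this
    refine ⟨N (W (code x b k)), inferInstance, ?_, hk, inferInstance, _, code_mem hb k,
      ⟨MulEquiv.refl _⟩⟩
    exact fun a ha => cen_mono (W_mono (s_le x b k)) ha

theorem meas_mem (a : F) : Measurable fun S : Y => a ∈ N (W S) := by
  simp only [mem_N, mem_cen_iff, mem_W]
  refine measurable_const.and (measurable_const.and (measurable_const.and
    (Measurable.forall fun i => Measurable.imp ?_ measurable_const)))
  exact (measurable_of_countable (fun b : Bool => b = false)).comp (measurable_pi_apply _)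

theorem meas_ev (a : F) : Measurable fun f : F → Bool => f a = true :=
  (measurable_of_countable (fun b : Bool => b = true)).comp (measurable_pi_apply _)

noncomputable def dec (v : Fin 3 → F) (f : F → Bool) : Y :=
  fun n => f (FreeGroup.lift v (g (enc.symm n)))

theorem P_iff (C : Set (Y × Y)) (f : F → Bool) :
    (∃ K : Subgroup F, K.Normal ∧ K ∈ P C ∧ ∀ a, f a = true ↔ a ∈ K) ↔
      (f 1 = true ∧ (∀ a b, f a = true → f b = true → f (a * b) = true) ∧
        (∀ a, f a = true → f a⁻¹ = true) ∧ (∀ a b, f a = true → f (b * a * b⁻¹) = true)) ∧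
      ∃ v : Fin 3 → F, (∀ a, ∃ w, f ((FreeGroup.lift v w)⁻¹ * a) = true) ∧ dec v f ∈ D C ∧
        ∀ a, (f (FreeGroup.lift v a) = true ↔ a ∈ N (W (dec v f))) := by
  constructor
  · rintro ⟨K, hK, ⟨_, S, hS, ⟨θ⟩⟩, hf⟩
    refine ⟨?_, ?_⟩
    · simp only [hf]
      exact ⟨K.one_mem, fun a b => K.mul_mem, fun a => K.inv_mem, fun a b h => hK.conj_mem a h b⟩
    · choose v hv using fun i : Fin 3 =>
        QuotientGroup.mk_surjective (θ.symm (FreeGroup.of i : F))
      have e : (QuotientGroup.mk' K).comp (FreeGroup.lift v) =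
          θ.symm.toMonoidHom.comp (QuotientGroup.mk' _) := by
        refine FreeGroup.ext_hom _ _ fun i => ?_
        simpa using hv i
      have e' : ∀ a : F, ((FreeGroup.lift v a : F) : F ⧸ K) = θ.symm (a : F ⧸ N (W S)) :=
        fun a => DFunLike.congr_fun e a
      have key : ∀ a, f (FreeGroup.lift v a) = true ↔ a ∈ N (W S) := by
        intro a
        rw [hf, ← QuotientGroup.eq_one_iff, e', ← QuotientGroup.eq_one_iff]
        simp
      have hd : dec v f = S := by
        funext n
        rw [Bool.eq_iff_iff, dec, key, g_mem]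
        simp
      refine ⟨v, fun a => ?_, hd ▸ hS, hd ▸ key⟩
      obtain ⟨w, hw⟩ := QuotientGroup.mk_surjective (θ (a : F ⧸ K))
      refine ⟨w, ?_⟩
      rw [hf, ← QuotientGroup.eq, e', hw]
      simp
  · rintro ⟨⟨h1, h2, h3, h4⟩, v, hv, hD, hk⟩
    let K : Subgroup F :=
      { carrier := {a | f a = true}
        mul_mem' := fun {a b} => h2 a b
        one_mem' := h1
        inv_mem' := fun {a} => h3 a }
    have hK : K.Normal := ⟨fun a ha b => h4 a b ha⟩
    refine ⟨K, hK, ⟨hK, dec v f, hD, ⟨?_⟩⟩, fun a => Iff.rfl⟩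
    let ψ : F →* F ⧸ K := (QuotientGroup.mk' K).comp (FreeGroup.lift v)
    have hψ : Function.Surjective ψ := by
      intro a
      obtain ⟨a, rfl⟩ := QuotientGroup.mk_surjective a
      obtain ⟨w, hw⟩ := hv a
      exact ⟨w, QuotientGroup.eq.2 hw⟩
    have hker : ψ.ker = N (W (dec v f)) := by
      ext a
      rw [← hk, MonoidHom.mem_ker]
      exact QuotientGroup.eq_one_iff _
    exact (QuotientGroup.quotientKerEquivOfSurjective ψ hψ).symm.trans
      (QuotientGroup.quotientMulEquivOfEq hker)

theorem meas_P {C : Set (Y × Y)} (hC : MeasurableSet C) : MeasurableSet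
    {f : F → Bool | ∃ K : Subgroup F, K.Normal ∧ K ∈ P C ∧ ∀ a, f a = true ↔ a ∈ K} := by
  simp only [P_iff]
  rw [measurableSet_setOfPred]
  have hd : ∀ v, Measurable (dec v) := fun v =>
    measurable_pi_lambda _ fun n => measurable_pi_apply _
  refine Measurable.and ((meas_ev _).and (Measurable.and ?_ (Measurable.and ?_ ?_)))
    (Measurable.exists fun v => Measurable.and ?_ (Measurable.and ?_ ?_))
  · exact Measurable.forall fun a => Measurable.forall fun b =>
      (meas_ev _).imp ((meas_ev _).imp (meas_ev _))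
  · exact Measurable.forall fun a => (meas_ev _).imp (meas_ev _)
  · exact Measurable.forall fun a => Measurable.forall fun b => (meas_ev _).imp (meas_ev _)
  · exact Measurable.forall fun a => Measurable.exists fun w => meas_ev _
  · exact measurableSet_setOfPred.1 (hd v (meas_D hC))
  · exact Measurable.forall fun a => (meas_ev _).iff ((meas_mem a).comp (hd v))

theorem meas_s : Measurable s := by
  refine measurable_pi_lambda _ fun n => ?_
  unfold s code
  split_ifs
  · exact measurable_pi_apply _
  · exact (measurable_of_countable (fun b : Bool => !b)).comp (measurable_pi_apply _)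
  · exact measurable_const
  · exact measurable_const

theorem not_meas_res {C : Set (Y × Y)} (hC : ¬ MeasurableSet {x | ∃ b, (x, b) ∈ C}) :
    ¬ MeasurableSet {f : F → Bool | ∃ K : Subgroup F, K.Normal ∧
      (∀ a : F, a ∉ K → ∃ M : Subgroup F, M.Normal ∧ K ≤ M ∧ a ∉ M ∧ M ∈ P C) ∧
      ∀ a, f a = true ↔ a ∈ K} := by
  classical
  intro h
  apply hC
  have hm : Measurable fun x : Y => fun a : F => decide (a ∈ N (W (s x))) := by
    refine measurable_pi_lambda _ fun a => measurable_to_bool ?_
    have := measurableSet_setOfPred.2 ((meas_mem a).comp meas_s)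
    convert this using 1
    ext x
    simp
  convert hm h using 1
  ext x
  simp only [mem_ofPred_eq, mem_preimage, decide_eq_true_eq]
  rw [← res_iff]
  constructor
  · intro hx
    exact ⟨_, inferInstance, hx, fun a => Iff.rfl⟩
  · rintro ⟨K, -, hK, he⟩
    have : K = N (W (s x)) := by
      ext a
      exact (he a).symm
    subst this
    exact hK

end Pool.Agent.H.MP_7a8588_lc
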